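import Pool.Agent.Helper65.LP.CondW

/-!
LinearLevels v2, block M1: the abstract bound with `k w ≤ 1/2` in place of `k √v ≤ 1/4` (the statement of the stub file, word by
word).
-/

set_option autoImplicit false

open MeasureTheory Finset
open scoped RealInnerProductSpace

namespace Pool.Agent.Helper65.LLK

open Pool.Agent.Helper47.KP (Bd pim sig Sph EE den PP Par)
open Pool.Agent.Helper47.LB
open Pool.Agent.Helper85.LP

/-- M1: the abstract bound, `k √v ≤ 1/4` replaced by `k w ≤ 1/2`, `∫ |g x - 1| ≤ w` -/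
theorem abstract_boundL {X : Type} [MetricSpace X] [CompactSpace X] [MeasurableSpace X] [BorelSpace X]
    [DecidableEq X] {σ : Measure X} [IsProbabilityMeasure σ] {g : X → X → ℝ} {G v ε w : ℝ}
    {D : ℕ → ℝ} {R : X → X → Prop} {k t : ℕ} {F : Finset X → Finset X → Finset X → ℝ}
    (K : KerD σ g G v ε D) (hw : ∀ x, ∫ y, |g x y - 1| ∂σ ≤ w) (hR : IsClosed {p : X × X | R p.1 p.2})
    (hirr : ∀ x, ¬ R x x) (hsym : ∀ x y, R x y → R y x) (hgR : ∀ x y, g x y ≠ 0 → R x y)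
    (hF : PM R k t F) (ht : 1 ≤ t)
    (hc : ∀ S : Finset X, S.Nonempty → S.card ≤ k + 2 * t →
      (∀ x ∈ S, ∀ y ∈ S, x ≠ y → R x y) → opM k t F S ≤ if S.card = 1 then -1 else 0)
    {N : ℝ} (hN : 0 < N) (hNv : 1 ≤ N * v) (h4v : 4 * v ≤ 1) (hG2 : G ^ k ≤ 2)
    (hkw : (k : ℝ) * w ≤ 1 / 2)
    (hnum : ∀ m : ℕ, 1 ≤ m → m ≤ t → ((t : ℝ) + 1) ^ 2 * 2 ^ t * G ^ (2 * t ^ 2) *
      (8 * N * v) ^ m * ((m : ℝ) + 1) ^ (2 * m) * D m ≤ 1) :
    N ≤ F ∅ ∅ ∅ :=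
  Pool.Agent.Helper65.LP.abstract_boundMW K hw hR hirr hsym hgR hF ht hc hN hNv h4v hG2 hkw hnum

end Pool.Agent.Helper65.LLK
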